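import Mathlib
import Pool.Agent.Y822.Main0

/-! The number of primes `p ≤ N` such that all `N + s - p` are rough. -/

set_option autoImplicit false

namespace Pool.Agent.Y822.R

open Finset Filter
open Pool.Agent.Y822
open Pool.Agent.H373R2.T7 (pz Vz mem_pz rhoA PerA lam_fund)
open Pool.Agent.H387R2.Uni (nuT Adm locT CT)

/-- the numbers `N + s` -/
def HM (N : ℕ) (H : Finset ℕ) : Finset ℕ := H.image (fun s => N + s)

lemma card_HM (N : ℕ) (H : Finset ℕ) : (HM N H).card = H.card :=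
  card_image_of_injective _ fun a b h => by simpa using h

lemma zero_HM {N : ℕ} (hN : 1 ≤ N) (H : Finset ℕ) : 0 ∉ HM N H := by
  intro h
  obtain ⟨s, _, hs⟩ := mem_image.1 h
  omega

open Classical in
/-- indicator of the `n` with `N - n` prime -/
noncomputable def eG (N n : ℕ) : ℝ := if (N - n).Prime then 1 else 0

lemma eG_bd (N n : ℕ) : 0 ≤ eG N n ∧ eG N n ≤ 1 := by
  unfold eG; split_ifs <;> norm_num

/-- forbidden classes -/
def QG (N : ℕ) (H : Finset ℕ) (p n : ℕ) : Prop := ∃ s ∈ H, n ≡ N + s [MOD p]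

/-- all `N + s - n` are rough -/
def BG (N : ℕ) (H : Finset ℕ) (y n : ℕ) : Prop := ∀ p ∈ pz y, ¬ QG N H p n

lemma roG_iff (N : ℕ) (H : Finset ℕ) (y n : ℕ) (hn : n ≤ N) :
    (∀ s ∈ H, Ro y (n + s)) ↔ BG N H y (N - n) := by
  have key : ∀ p s : ℕ, p ∣ n + s ↔ N - n ≡ N + s [MOD p] := by
    intro p s
    rw [Nat.modEq_iff_dvd' (by omega)]
    have : N + s - (N - n) = n + s := by omega
    rw [this]
  constructor
  · rintro h p hp ⟨s, hs, hd⟩
    exact h s hs p (mem_pz.1 hp).2 (mem_pz.1 hp).1 ((key p s).2 hd)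
  · intro h s hs p hp hpy hd
    exact h p (mem_pz.2 ⟨hpy, hp⟩) ⟨s, hs, (key p s).1 hd⟩

open Classical in
/-- reflection -/
lemma card_refl (N : ℕ) (hN : 4 ≤ N) (hev : Even N) (P : ℕ → Prop) :
    ((Icc 1 N).filter (fun n => (N - n).Prime ∧ P (N - n))).card =
      ((Icc 1 N).filter (fun n => n.Prime ∧ P n)).card := by
  have hNp : ¬ N.Prime := by
    intro h
    have h2 := h.eq_two_or_odd'
    rcases h2 with h2 | h2
    · omega
    · exact (Nat.not_even_iff_odd.2 h2) hev
  refine card_nbij' (fun n => N - n) (fun n => N - n) ?_ ?_ ?_ ?_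
  · intro n hn
    simp only [coe_filter, mem_Icc, Set.mem_ofPred_eq] at hn ⊢
    have := hn.2.1.two_le
    exact ⟨⟨by omega, by omega⟩, hn.2⟩
  · intro n hn
    simp only [coe_filter, mem_Icc, Set.mem_ofPred_eq] at hn ⊢
    have h1 : n ≠ N := by
      rintro rfl
      exact hNp hn.2.1
    have h2 : N - (N - n) = n := by omega
    rw [h2]
    exact ⟨⟨by omega, by omega⟩, hn.2⟩
  · intro n hn
    simp only [coe_filter, mem_Icc, Set.mem_ofPred_eq] at hn
    show N - (N - n) = n
    omega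
  · intro n hn
    simp only [coe_filter, mem_Icc, Set.mem_ofPred_eq] at hn
    show N - (N - n) = n
    omega

open Classical in
/-- the mixed weight with all shifts treated by `ro y` -/
lemma WHG_rough (g : ℕ → ℝ) (H : Finset ℕ) (y N : ℕ) (hN : 4 ≤ N) (hev : Even N) :
    ∑ n ∈ Icc 1 N, WH (eG N) g (ro y) H ∅ n =
      (((Icc 1 N).filter (fun n => n.Prime ∧ BG N H y n)).card : ℝ) := by
  have h : ∀ n ∈ Icc 1 N, WH (eG N) g (ro y) H ∅ n =
      if ((N - n).Prime ∧ BG N H y (N - n)) then (1 : ℝ) else 0 := by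
    intro n hn
    have hnN := (mem_Icc.1 hn).2
    unfold WH eG
    rw [prod_empty, one_mul, sdiff_empty]
    by_cases h1 : (N - n).Prime
    · rw [if_pos h1, one_mul]
      by_cases h2 : BG N H y (N - n)
      · rw [if_pos ⟨h1, h2⟩]
        refine prod_eq_one fun s hs => ?_
        unfold ro
        rw [if_pos ((roG_iff N H y n hnN).2 h2 s hs)]
      · rw [if_neg (fun h => h2 h.2)]
        have h3 : ¬ ∀ s ∈ H, Ro y (n + s) := fun h => h2 ((roG_iff N H y n hnN).1 h)
        push Not at h3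
        obtain ⟨s, hs, hns⟩ := h3
        refine prod_eq_zero hs ?_
        unfold ro
        rw [if_neg hns]
    · rw [if_neg h1, if_neg (fun h => h1 h.1), zero_mul]
  rw [sum_congr rfl h, ← sum_filter, sum_const, nsmul_eq_mul, mul_one, card_refl N hN hev]

lemma rho_patG {N : ℕ} (H : Finset ℕ) (p : ℕ) (hp : p.Prime) :
    rhoA (QG N H) p + 1 = nuT (pat (HM N H)) p := by
  classical
  unfold rhoA nuT
  have h1 : (pat (HM N H)).image (· % p) =
      insert 0 ((range p).filter (fun r => ¬ p ∣ r ∧ QG N H p r)) := by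
    ext r
    simp only [pat, HM, mem_image, mem_insert, mem_filter, mem_range, QG]
    constructor
    · rintro ⟨m, hm, rfl⟩
      rcases Nat.eq_zero_or_pos (m % p) with h0 | h0
      · exact Or.inl h0
      · right
        have hlt := Nat.mod_lt m hp.pos
        refine ⟨hlt, fun h => ?_, ?_⟩
        · have := Nat.le_of_dvd h0 h
          omega
        · rcases hm with rfl | ⟨s, hs, rfl⟩
          · simp at h0
          · exact ⟨s, hs, Nat.mod_modEq _ _⟩
    · rintro (rfl | ⟨hr, _, s, hs, h⟩)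
      · exact ⟨0, Or.inl rfl, Nat.zero_mod p⟩
      · refine ⟨N + s, Or.inr ⟨s, hs, rfl⟩, ?_⟩
        have h2 : r % p = (N + s) % p := h
        rw [← h2, Nat.mod_eq_of_lt hr]
  rw [h1, card_insert_of_notMem]
  rw [mem_filter]
  rintro ⟨_, h, _⟩
  exact h (dvd_zero p)

lemma perA_QG {N : ℕ} (hN : 1 ≤ N) {H : Finset ℕ} (k : ℕ) (hH : H.card = k) : PerA (QG N H) (k + 1) := by
  constructor
  · intro p n
    unfold QG
    constructor
    · rintro ⟨s, hs, hd⟩
      exact ⟨s, hs, (Nat.mod_modEq n p).trans hd⟩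
    · rintro ⟨s, hs, hd⟩
      exact ⟨s, hs, (Nat.mod_modEq n p).symm.trans hd⟩
  · intro p hp
    have h1 := rho_patG (N := N) H p hp
    have h2 := nuT_le_card (pat (HM N H)) p
    rw [card_pat (zero_HM hN H), card_HM, hH] at h2
    omega

lemma prod_rhoG {N : ℕ} (hN : 1 ≤ N) {H : Finset ℕ} (k : ℕ) (hH : H.card = k) (y : ℕ) :
    ∏ p ∈ pz y, (1 - (rhoA (QG N H) p : ℝ) / (p - 1 : ℝ)) = PT (pat (HM N H)) y * Vz y ^ k := by
  have h0 := zero_HM hN H
  have hc : (HM N H).card = k := by rw [card_HM, hH]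
  unfold PT Vz
  rw [← prod_pow, ← prod_mul_distrib]
  refine prod_congr rfl fun p hp => ?_
  have hpp := (mem_pz.1 hp).2
  have h1 := rho_patG (N := N) H p hpp
  have h2 : (rhoA (QG N H) p : ℝ) = (nuT (pat (HM N H)) p : ℝ) - 1 := by
    rw [← h1]; push_cast; ring
  have hp2 : (2 : ℝ) ≤ p := by exact_mod_cast hpp.two_le
  have hp0 : (p : ℝ) ≠ 0 := by positivity
  have hp1 : (p : ℝ) - 1 ≠ 0 := by
    have : 0 < (p : ℝ) - 1 := by linarith
    exact this.ne'
  have hq : 1 - 1 / (p : ℝ) = ((p : ℝ) - 1) / p := by field_simp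
  unfold locT
  rw [h2, card_pat h0, hc, hq, pow_succ]
  have h3 : ((p : ℝ) - 1) / p ≠ 0 := div_ne_zero hp1 hp0
  have h4 : (((p : ℝ) - 1) / p) ^ k ≠ 0 := pow_ne_zero _ h3
  field_simp
  ring

/-- **primes `p ≤ N` with all `N + s - p` rough** -/
theorem main0G (κ : ℝ) (hκ : 0 < κ) (hκ1 : κ ≤ 1) (k U : ℕ) (ε : ℝ) (hε : 0 < ε) (hε1 : ε ≤ 1) :
    ∀ᶠ N : ℕ in atTop, Even N → ∀ g : ℕ → ℝ, ∀ H : Finset ℕ, H.card = k →
      |∑ n ∈ Icc 1 N, WH (eG N) g (ro (yN κ N)) H ∅ n -
        N / Real.log N * (PT (pat (HM N H)) (yN κ N) * Vz (yN κ N) ^ k)| ≤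
      ε * (N / Real.log N * (PT (pat (HM N H)) (yN κ N) * Vz (yN κ N) ^ k)) + N / Real.log N ^ U := by
  classical
  obtain ⟨K, hK, hfund⟩ := lam_fund (k + 1) (by omega) (ε / 4) (by positivity)
  obtain ⟨x0, hx0⟩ := hfund (U + 1)
  have e1 := ev_logN (ev_log_pow 1 ((U + 1) * 8 / ε))
  have e2 := ev_logN (eventually_ge_atTop (8 : ℝ))
  have e3 := ev_logN (ev_pow_exp (U + 1) (1 / 2) 8 (by norm_num))
  have e4 := ev_logN (ev_pow_exp (U + 1) 1 1 (by norm_num))
  filter_upwards [yN_facts κ hκ hκ1 x0 K, e1, e2, e3, e4, eventually_ge_atTop 4] with N hyf h1 h2 h3 h4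
    hN hev g H hH
  obtain ⟨y1, y2, y3, y4, y5⟩ := hyf
  set y := yN κ N with hy
  set L := Real.log N with hL
  have hL0 : 0 < L := by linarith
  have hN0 : (0 : ℝ) < N := by positivity
  have hNe : (N : ℝ) = Real.exp L := by rw [hL, Real.exp_log hN0]
  rw [pow_one] at h1
  rw [WHG_rough g H y N hN hev]
  have hmain := hx0 N y y5 y4 (QG N H) (perA_QG (by omega) k hH) N le_rfl
  rw [prod_rhoG (by omega) k hH y] at hmain
  set P := PT (pat (HM N H)) y * Vz y ^ k with hP
  have hP0 : 0 ≤ P := by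
    rw [hP]
    refine mul_nonneg (PT_nonneg (pat (HM N H)) y) (pow_nonneg ?_ k)
    unfold Vz
    refine prod_nonneg fun p hp => ?_
    have : (1 : ℝ) ≤ p := by exact_mod_cast (mem_pz.1 hp).2.one_lt.le
    rw [sub_nonneg, div_le_one (by linarith)]
    exact this
  obtain ⟨S, hS⟩ : ∃ S, S = ∑ n ∈ (Icc 1 N).filter (BG N H y),
    ArithmeticFunction.vonMangoldt n := ⟨_, rfl⟩
  obtain ⟨C, hC⟩ : ∃ C, C = (((Icc 1 N).filter (fun n => n.Prime ∧ BG N H y n)).card : ℝ) := ⟨_, rfl⟩
  have hmain' : |S - N * P| ≤ ε / 4 * (N * P) + N / L ^ (U + 1) := by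
    rw [hS]
    refine le_trans (le_of_eq ?_) hmain
    congr 2
    refine sum_congr ?_ fun _ _ => rfl
    ext n
    rw [mem_filter, mem_filter]
    exact Iff.rfl
  have hlow := count_low (BG N H y) N (by omega)
  have hlow' : S - 2 * Real.sqrt N * L ≤ L * C := by
    rw [hS, hC]
    exact hlow
  have hC0 : 0 ≤ C := by rw [hC]; exact Nat.cast_nonneg _
  have hNP : 0 ≤ N / L * P := by positivity
  have hm := abs_le.1 hmain'
  -- logarithm of `N / L^(U+1)`
  set x := (N : ℝ) / L ^ (U + 1) with hx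
  have hLU : 0 < L ^ (U + 1) := by positivity
  have hx1 : 1 ≤ x := by
    rw [hx, le_div_iff₀ hLU, one_mul, hNe]
    have := h4
    rwa [one_mul, one_mul] at this
  have hxN : x ≤ N := div_le_self hN0.le (one_le_pow₀ (by linarith))
  have hlx : Real.log x = L - (U + 1) * Real.log L := by
    rw [hx, Real.log_div hN0.ne' hLU.ne', Real.log_pow]
    push_cast
    rfl
  have hlx2 : (1 - ε / 8) * L ≤ Real.log x := by
    rw [hlx]
    have : (U + 1) * Real.log L ≤ ε / 8 * L := by
      have h5 : (U + 1) * 8 / ε * Real.log L * (ε / 8) ≤ L * (ε / 8) :=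
        mul_le_mul_of_nonneg_right h1 (by positivity)
      have h6 : (U + 1) * 8 / ε * Real.log L * (ε / 8) = (U + 1) * Real.log L := by field_simp
      rw [h6] at h5
      linarith
    nlinarith
  have hup := count_up (BG N H y) N x hx1
  have hup' : Real.log x * C ≤ S + Real.log x * x := by
    rw [hS, hC]
    exact hup
  have hlx0 : 0 < Real.log x := lt_of_lt_of_le (by nlinarith) hlx2
  -- error terms
  have hxL : N / L ^ (U + 1) = N / L ^ U / L := by
    rw [pow_succ]
    field_simp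
  set R := (N : ℝ) / L ^ U with hR
  have hR0 : 0 ≤ R := by positivity
  have hxR : x = R / L := hxL
  have hRL : R / L ≤ R / 8 := div_le_div_of_nonneg_left hR0 (by norm_num) h2
  have hsq : 2 * Real.sqrt N ≤ R / L / 4 := by
    have h5 : Real.sqrt N = Real.exp (L / 2) := by
      rw [hNe, Real.exp_half]
    have h6 : (N : ℝ) = Real.exp (L / 2) * Real.exp (L / 2) := by
      rw [← Real.exp_add, hNe]; congr 1; ring
    rw [← hxL, h5, le_div_iff₀ (by norm_num), le_div_iff₀ hLU]
    have h7 : 8 * L ^ (U + 1) ≤ Real.exp (L / 2) := by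
      have : (1 : ℝ) / 2 * L = L / 2 := by ring
      rw [← this]; exact h3
    calc 2 * Real.exp (L / 2) * 4 * L ^ (U + 1) = Real.exp (L / 2) * (8 * L ^ (U + 1)) := by ring
      _ ≤ Real.exp (L / 2) * Real.exp (L / 2) := mul_le_mul_of_nonneg_left h7 (Real.exp_pos _).le
      _ = N := h6.symm
  have hNPL : N * P = L * (N / L * P) := by field_simp
  rw [hxR, hNPL] at hm
  rw [← hC]
  set Q := N / L * P with hQ
  have hdiv : ∀ a b : ℝ, L * a ≤ L * b → a ≤ b := fun a b h => le_of_mul_le_mul_left h hL0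
  rw [abs_le]
  constructor
  · -- lower bound
    apply hdiv
    have h5 : L * (R / L) = R := by field_simp
    nlinarith [hm.1]
  · -- upper bound
    have h6 : (1 - ε / 8) * L * C ≤ S + Real.log x * x := by
      refine le_trans ?_ hup'
      exact mul_le_mul_of_nonneg_right hlx2 hC0
    have hlxL : Real.log x ≤ L := by
      rw [hlx]
      have : 0 ≤ (U + 1) * Real.log L := by
        have := Real.log_nonneg (by linarith : (1 : ℝ) ≤ L)
        positivity
      linarith
    have h7 : Real.log x * x ≤ L * (R / L) := by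
      rw [← hxR]
      exact mul_le_mul_of_nonneg_right hlxL (by linarith)
    have h8 : (1 - ε / 8) * L * C ≤ L * ((1 + ε / 4) * Q + (R / L) / L + R / L) := by
      have e9 : L * ((R / L) / L) = R / L := by field_simp
      nlinarith [hm.2]
    have h9 : (1 - ε / 8) * C ≤ (1 + ε / 4) * Q + (R / L) / L + R / L := by
      apply hdiv
      linarith
    have h10 : (R / L) / L ≤ R / 64 := by
      have : (R / L) / L ≤ (R / 8) / 8 :=
        div_le_div₀ (by positivity) hRL (by norm_num) h2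
      linarith
    have h11 : (1 - ε / 8) * C ≤ (1 + ε / 4) * Q + R / 4 := by linarith
    have h12 : (1 + ε / 4) * Q + R / 4 ≤ (1 - ε / 8) * ((1 + ε) * Q + R) := by
      nlinarith [mul_nonneg hε.le hNP, mul_nonneg hε.le hR0]
    have h13 : C ≤ (1 + ε) * Q + R := le_of_mul_le_mul_left (h11.trans h12) (by linarith)
    linarith


end Pool.Agent.Y822.R
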