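import Mathlib
import Pool.Agent.Y822.R.Main0
import Pool.Agent.Y822.Low2

/-! Simultaneous Goldbach representations by a prime and an almost prime, for all but few sets of even numbers. -/

set_option autoImplicit false

namespace Pool.Agent.Y822.R

open Finset Filter
open Pool.Agent.Y822
open Pool.Agent.H442R2
open Pool.Agent.H373R2.T7 (pz Vz mem_pz)
open Pool.Agent.H387R2.Uni (nuT Adm locT CT)
open Pool.Agent.W23.DC (FacO facR tt)
open Pool.Agent.Y822.Cop Pool.Agent.Y822.Nc Pool.Agent.Y822.Par3 Pool.Agent.Y822.QF Pool.Agent.Y822.Lin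
  Pool.Agent.Y822.Stp Pool.Agent.Y822.Err Pool.Agent.Y822.Low

open Classical in
/-- the number of primes `p ≤ N` such that all `m - p`, `m ∈ M`, have at most two prime factors, all of
them at least `N ^ (1/7)` -/
noncomputable def gol2 (M : Finset ℕ) (N : ℕ) : ℕ :=
  ((Icc 1 N).filter (fun p => p.Prime ∧ ∀ m ∈ M, (m - p).primeFactorsList.length ≤ 2 ∧
    ∀ q ∈ (m - p).primeFactors, (N : ℝ) ^ (1 / 7 : ℝ) ≤ q)).card

open Classical in
/-- indicator of the odd `n` with `N - n` prime -/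
noncomputable def eOG (N n : ℕ) : ℝ := if (N - n).Prime ∧ Odd n then 1 else 0

lemma eOG_bd (N n : ℕ) : 0 ≤ eOG N n ∧ eOG N n ≤ 1 := by
  unfold eOG; split_ifs <;> norm_num

lemma eOG_odd {N n : ℕ} (h : eOG N n ≠ 0) : Odd n := by
  unfold eOG at h
  by_contra hn
  apply h
  rw [if_neg (fun h => hn h.2)]

lemma adm_evenG {N : ℕ} (hN : Even N) {H : Finset ℕ} (hA : Adm (pat (HM N H))) {h : ℕ} (hh : h ∈ H) : Even h := by
  have h1 : Even (N + h) := adm_even hA (mem_image.2 ⟨h, hh, rfl⟩)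
  exact (Nat.even_add.1 h1).1 hN

lemma WHG_eG_eOG (g : ℕ → ℝ) (y N : ℕ) (H : Finset ℕ) (hN : Even N) :
    ∑ n ∈ Icc 1 N, WH (eG N) g (ro y) H ∅ n - 1 ≤ ∑ n ∈ Icc 1 N, WH (eOG N) g (ro y) H ∅ n := by
  classical
  have h1 : ∀ n ∈ Icc 1 N, WH (eG N) g (ro y) H ∅ n ≤
      WH (eOG N) g (ro y) H ∅ n + (if n = N - 2 then 1 else 0) := by
    intro n hn
    rw [mem_Icc] at hn
    unfold WH
    rw [prod_empty, one_mul, sdiff_empty]
    have p0 : 0 ≤ ∏ s ∈ H, ro y (n + s) := prod_nonneg fun s _ => ro_nonneg _ _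
    have p1 : ∏ s ∈ H, ro y (n + s) ≤ 1 := prod_le_one (fun s _ => ro_nonneg _ _) fun s _ => ro_le_one _ _
    by_cases hp : (N - n).Prime
    · by_cases h2 : n = N - 2
      · rw [if_pos h2]
        have := eG_bd N n
        have h3 := eOG_bd N n
        have h4 : eG N n * ∏ s ∈ H, ro y (n + s) ≤ 1 := mul_le_one₀ this.2 p0 p1
        have h5 : 0 ≤ eOG N n * ∏ s ∈ H, ro y (n + s) := mul_nonneg h3.1 p0
        linarith
      · rw [if_neg h2, add_zero]
        have h3 : eG N n = eOG N n := by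
          unfold eG eOG
          have h5 : Odd (N - n) := hp.odd_of_ne_two (by omega)
          have h6 : Odd n := by
            rw [Nat.odd_iff] at h5 ⊢
            rw [Nat.even_iff] at hN
            omega
          rw [if_pos hp, if_pos ⟨hp, h6⟩]
        rw [h3]
    · have h3 : eG N n = 0 := by unfold eG; rw [if_neg hp]
      have h4 : eOG N n = 0 := by unfold eOG; rw [if_neg (fun h => hp h.1)]
      rw [h3, h4]
      simp only [zero_mul, zero_add]
      split_ifs <;> norm_num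
  have h2 := sum_le_sum h1
  rw [sum_add_distrib] at h2
  have h3 : ∑ n ∈ Icc 1 N, (if n = N - 2 then (1 : ℝ) else 0) ≤ 1 := by
    rw [sum_ite_eq']
    split_ifs <;> norm_num
  linarith

lemma card_dec' {S : Finset ℕ} {P : ℕ → Prop} (i1 i2 : DecidablePred P) :
    (@Finset.filter ℕ P i1 S).card = (@Finset.filter ℕ P i2 S).card := by
  rw [Subsingleton.elim i1 i2]

lemma WHG_full_le (N y : ℕ) (H : Finset ℕ) (hN : 4 ≤ N) (hev : Even N) :
    ∑ n ∈ Icc 1 N, WH (eOG N) (g2 N) (ro y) H H n ≤ gol2 (HM N H) N := by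
  classical
  have e0 : gol2 (HM N H) N = ((Icc 1 N).filter (fun n => (N - n).Prime ∧ ∀ m ∈ HM N H,
      (m - (N - n)).primeFactorsList.length ≤ 2 ∧
      ∀ q ∈ (m - (N - n)).primeFactors, (N : ℝ) ^ (1 / 7 : ℝ) ≤ q)).card := by
    have h := card_refl N hN hev (fun p => ∀ m ∈ HM N H, (m - p).primeFactorsList.length ≤ 2 ∧
      ∀ q ∈ (m - p).primeFactors, (N : ℝ) ^ (1 / 7 : ℝ) ≤ q)
    unfold gol2
    refine Eq.trans ?_ (h.symm.trans ?_)
    · exact card_dec' _ _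
    · exact card_dec' _ _
  rw [e0, card_filter]
  push_cast
  refine sum_le_sum fun n hn => ?_
  rw [mem_Icc] at hn
  unfold WH
  rw [sdiff_self, bot_eq_empty, prod_empty, mul_one]
  have p0 : 0 ≤ ∏ s ∈ H, g2 N (n + s) := prod_nonneg fun s _ => (g2_bd _ _).1
  have p1 : ∏ s ∈ H, g2 N (n + s) ≤ 1 := prod_le_one (fun s _ => (g2_bd _ _).1) fun s _ => (g2_bd _ _).2
  by_cases h : (N - n).Prime ∧ ∀ m ∈ HM N H, (m - (N - n)).primeFactorsList.length ≤ 2 ∧
      ∀ q ∈ (m - (N - n)).primeFactors, (N : ℝ) ^ (1 / 7 : ℝ) ≤ q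
  · rw [if_pos h]
    exact mul_le_one₀ (eOG_bd N n).2 p0 p1
  · rw [if_neg h]
    apply le_of_eq
    by_cases hp : (N - n).Prime
    · have h2 : ¬ ∀ m ∈ HM N H, (m - (N - n)).primeFactorsList.length ≤ 2 ∧
        ∀ q ∈ (m - (N - n)).primeFactors, (N : ℝ) ^ (1 / 7 : ℝ) ≤ q := fun h3 => h ⟨hp, h3⟩
      rw [not_forall] at h2
      obtain ⟨m, hm⟩ := h2
      rw [Classical.not_imp] at hm
      obtain ⟨s, hs, hsm⟩ := mem_image.1 hm.1
      have e : m - (N - n) = n + s := by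
        rw [← hsm]
        omega
      rw [e] at hm
      rw [prod_eq_zero hs, mul_zero]
      unfold g2
      rw [if_neg]
      intro h4
      exact hm.2 h4.2
    · have h4 : eOG N n = 0 := by unfold eOG; rw [if_neg (fun h => hp h.1)]
      rw [h4, zero_mul]

/-- **the lower bound** -/
theorem low_mainG : ∃ c : ℝ, 0 < c ∧ ∀ k : ℕ, ∃ B : ℕ, ∀ᶠ N : ℕ in atTop, Even N →
    ∀ A : Finset ℕ, (∀ a ∈ A, 1 ≤ a ∧ a ≤ N) → ∀ Bad : Finset (Finset ℕ),
    (∀ H ∈ Bad, H ∈ A.powersetCard (k + 1) ∧ Adm (pat (HM N H)) ∧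
      (gol2 (HM N H) N : ℝ) < c ^ (k + 1) * CT (pat (HM N H)) * (N / Real.log N ^ (k + 2))) →
    (Bad.card : ℝ) ≤ A.card.choose k * Real.log N ^ B := by
  classical
  obtain ⟨c₀', hc₀', C0, hC0, STEP⟩ := step
  obtain ⟨δ₀, hδ₀, HQ⟩ := QF_fin (1 / 500) (by norm_num) (by norm_num)
  obtain ⟨cz, hcz, VZ⟩ := Vz_sharp
  obtain ⟨c₀, hc₀d⟩ : ∃ c₀ : ℝ, c₀ = min c₀' 1 := ⟨_, rfl⟩
  have hc₀ : 0 < c₀ := by rw [hc₀d]; exact lt_min hc₀' one_pos
  have hc₀1 : c₀ ≤ 1 := by rw [hc₀d]; exact min_le_right _ _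
  have hc₀2 : c₀ ≤ c₀' := by rw [hc₀d]; exact min_le_left _ _
  obtain ⟨δ', hδ'd⟩ : ∃ δ' : ℝ, δ' = min δ₀ (1 / 4) := ⟨_, rfl⟩
  have hδ' : 0 < δ' := by rw [hδ'd]; exact lt_min hδ₀ (by norm_num)
  have hδ'1 : δ' ≤ δ₀ := by rw [hδ'd]; exact min_le_left _ _
  have hδ'2 : δ' ≤ 1 / 4 := by rw [hδ'd]; exact min_le_right _ _
  obtain ⟨ε₁, hε₁, hε₁25, _, N₁, STEP⟩ := STEP δ' hδ'
  have hε₁2 : ε₁ ≤ 1 / 2 := by linarith
  have hε₁1 : ε₁ ≤ 1 := by linarith
  obtain ⟨N₂, hinv⟩ := sum_inv_FF ε₁ hε₁ hε₁1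
  refine ⟨c₀ * cz / 8, by positivity, fun k => ?_⟩
  obtain ⟨κ₁, hκ₁, hκ₁1, HQ⟩ := HQ δ' hδ' hδ'1 ε₁ hε₁ hε₁2 (k + 4 + 3)
  obtain ⟨κ₂, hκ₂, hκ₂1, HF⟩ := few_par' (k + 4 + 3) (1 / 4) (by norm_num) (by norm_num)
  obtain ⟨κ, hκd⟩ : ∃ κ : ℝ, κ = min κ₁ κ₂ := ⟨_, rfl⟩
  have hκ : 0 < κ := by rw [hκd]; exact lt_min hκ₁ hκ₂
  have hκ1 : κ ≤ κ₁ := by rw [hκd]; exact min_le_left _ _
  have hκ2 : κ ≤ κ₂ := by rw [hκd]; exact min_le_right _ _
  have hκ01 : κ ≤ 1 := hκ1.trans hκ₁1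
  obtain ⟨C, HQ⟩ := HQ κ hκ hκ1
  obtain ⟨C', HF⟩ := HF κ hκ hκ2
  obtain ⟨cp, hcp, hlow⟩ := Pool.Agent.Y822.PT_low (k + 1)
  have hm0 := main0G κ hκ hκ01 (k + 1) (k + 4) (1 / 2) (by norm_num) (by norm_num)
  refine ⟨max C C' + 2, ?_⟩
  obtain ⟨q, hq⟩ : ∃ q : ℝ, q = 1 + Real.exp 1 / ε₁ := ⟨_, rfl⟩
  have e1 := ev_logN (eventually_ge_atTop (max (max 3 (12 * q)) (max ((2 : ℝ) ^ (k + 1))
    (max (8 * (k + 3) / ((c₀ * cz) ^ (k + 1) * cp)) (8 * ((k : ℝ) + 2) ^ 3)))))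
  have e2 := ev_logN (ev_pow_exp (k + 4) (1 / 7) 24 (by norm_num))
  have e3 := ev_logN (ev_pow_exp (k + 4) 1 1 (by norm_num))
  filter_upwards [HQ, HF, hm0, yN_facts κ hκ hκ01 (max C0 3) 1, zN_facts ε₁ hε₁ hε₁1 3,
    yN_le_zN κ ε₁ hκ hκ01 hε₁ hε₁1, e1, e2, e3, eventually_ge_atTop (max (max N₁ N₂) 4)]
    with N HQ HF hm hyf hzf hyz h1 h2 h3 hN
  intro hNev A hA Bad hBad
  have hNN₁ : N₁ ≤ N := ((le_max_left _ _).trans (le_max_left _ _)).trans hN
  have hNN₂ : N₂ ≤ N := ((le_max_right _ _).trans (le_max_left _ _)).trans hN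
  have hN4 : 4 ≤ N := (le_max_right _ _).trans hN
  have hN3 : 3 ≤ N := by omega
  have hN2 : 2 ≤ N := by omega
  obtain ⟨y1, y2, y3, y4, y5⟩ := hyf
  obtain ⟨z1, z2, z3, z4, z5⟩ := hzf
  set y := yN κ N with hy
  set z := zN ε₁ N with hz
  set L := Real.log N with hLd
  have hN0 : (0 : ℝ) < N := by positivity
  have hL3 : 3 ≤ L := ((le_max_left _ _).trans (le_max_left _ _)).trans h1
  have hLq : 12 * q ≤ L := ((le_max_right _ _).trans (le_max_left _ _)).trans h1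
  have hL2k : (2 : ℝ) ^ (k + 1) ≤ L := ((le_max_left _ _).trans (le_max_right _ _)).trans h1
  have hLb : 8 * (k + 3) / ((c₀ * cz) ^ (k + 1) * cp) ≤ L :=
    ((le_max_left _ _).trans ((le_max_right _ _).trans (le_max_right _ _))).trans h1
  have hLk : 8 * ((k : ℝ) + 2) ^ 3 ≤ L :=
    ((le_max_right _ _).trans ((le_max_right _ _).trans (le_max_right _ _))).trans h1
  have hL0 : 0 < L := by linarith
  have hL1 : 1 ≤ L := by linarith
  have hyC0 : C0 ≤ y := (le_max_left _ _).trans y5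
  have hy3 : 3 ≤ y := (le_max_right _ _).trans y5
  have hz3 : 3 ≤ z := z2
  set x : ℝ := N / L ^ (k + 4) with hx
  have hx0 : 0 ≤ x := by positivity
  have hx1 : 1 ≤ x := by
    rw [hx, le_div_iff₀ (by positivity), one_mul]
    rw [one_mul, one_mul] at h3
    rwa [hLd, Real.exp_log hN0] at h3
  -- the factor of one step
  set u : ℝ := c₀ * ε₁ * VP (Pin N y ε₁) with hu
  have hVP : 0 ≤ VP (Pin N y ε₁) ∧ VP (Pin N y ε₁) ≤ 1 := by
    unfold VP
    have hb : ∀ p ∈ Pin N y ε₁, 0 ≤ 1 - 1 / (p : ℝ) ∧ 1 - 1 / (p : ℝ) ≤ 1 := by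
      intro p hp
      have hp1 : (1 : ℝ) ≤ p := by exact_mod_cast (mem_Pin.1 hp).2.1.one_lt.le
      have : 1 / (p : ℝ) ≤ 1 := by rw [div_le_one (by linarith)]; exact hp1
      have h0 : 0 ≤ 1 / (p : ℝ) := by positivity
      constructor <;> linarith
    exact ⟨prod_nonneg fun p hp => (hb p hp).1, prod_le_one (fun p hp => (hb p hp).1) fun p hp => (hb p hp).2⟩
  have hu0 : 0 ≤ u := by rw [hu]; exact mul_nonneg (by positivity) hVP.1
  have hu1 : u ≤ 1 := by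
    rw [hu]
    have : c₀ * ε₁ ≤ 1 := mul_le_one₀ hc₀1 hε₁.le hε₁1
    exact mul_le_one₀ this hVP.1 hVP.2
  have hVz0 : 0 ≤ Vz y := by
    unfold Vz
    refine prod_nonneg fun p hp => ?_
    have hp1 : (1 : ℝ) ≤ p := by exact_mod_cast (mem_pz.1 hp).2.one_lt.le
    have : 1 / (p : ℝ) ≤ 1 := by rw [div_le_one (by linarith)]; exact hp1
    linarith
  have huV : c₀ * cz / L ≤ u * Vz y := by
    have t1 : u * Vz y = c₀ * ε₁ * Vz z := by
      rw [hu, mul_assoc, VP_Vz hN2 hyz z5]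
    rw [t1]
    have t2 := VZ z hz3
    have hz0 : (0 : ℝ) < z := by positivity
    have t3 : Real.log z ≤ ε₁ * L := by
      have h5 := (zN_lt (ε₁ := ε₁) (N := N) (by omega)).le
      rw [← hz] at h5
      calc Real.log z ≤ Real.log ((N : ℝ) ^ ε₁) := Real.log_le_log hz0 h5
        _ = ε₁ * L := Real.log_rpow hN0 _
    have t4 : 0 < Real.log z := Real.log_pos (by exact_mod_cast (by omega : 1 < z))
    have t5 : cz / (ε₁ * L) ≤ Vz z := (div_le_div_of_nonneg_left hcz.le t4 t3).trans t2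
    calc c₀ * cz / L = c₀ * ε₁ * (cz / (ε₁ * L)) := by field_simp
      _ ≤ c₀ * ε₁ * Vz z := mul_le_mul_of_nonneg_left t5 (by positivity)
  -- the sets which are not good
  have hbad : ∀ H ∈ Bad, H ∈ A.powersetCard (k + 1) ∧
      ¬ Good (eOG N) (g2 N) (ro y) (Zf N y ε₁ δ') x H := by
    intro H hH
    obtain ⟨b1, b2, b3⟩ := hBad H hH
    refine ⟨b1, fun hg => ?_⟩
    rw [mem_powersetCard] at b1
    have h0 : 0 ∉ HM N H := zero_HM (by omega) H
    have hcH : (HM N H).card = k + 1 := by rw [card_HM, b1.2]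
    have hHN : ∀ h ∈ H, h ≤ N := fun h hh => (hA h (b1.1 hh)).2
    obtain ⟨c1, c2⟩ := hlow (pat (HM N H)) (by rw [card_pat h0, hcH]) b2
    -- the constants
    have hCP : CT (pat (HM N H)) ≤ 2 * PT (pat (HM N H)) y := by
      have g1 := CT_up (pat (HM N H)) (N ^ 2) y (fun t ht => by
        unfold pat HM at ht
        rw [mem_insert, mem_image] at ht
        rcases ht with rfl | ⟨s, hs, rfl⟩
        · positivity
        · have := hHN s hs
          nlinarith) (by omega)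
      rw [card_pat h0, hcH] at g1
      refine g1.trans (mul_le_mul_of_nonneg_right ?_ (PT_nonneg _ _))
      have hy0 : (0 : ℝ) < y := by positivity
      have g2 : (Nat.log y (N ^ 2) : ℝ) ≤ 2 * L := by
        have g3 : (Nat.log y (N ^ 2) : ℝ) ≤ Real.logb y ((N ^ 2 : ℕ) : ℝ) := Real.natLog_le_logb _ _
        have g4 : 1 ≤ Real.log y := by
          rw [Real.le_log_iff_exp_le hy0]
          have h5 : (3 : ℝ) ≤ y := by exact_mod_cast hy3
          have := Real.exp_one_lt_d9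
          linarith
        refine g3.trans ?_
        have e2L : Real.log ((N ^ 2 : ℕ) : ℝ) = 2 * L := by
          push_cast
          rw [Real.log_pow, hLd]
          push_cast
          ring
        rw [Real.logb, e2L]
        exact div_le_self (by positivity) g4
      have g5 : L ^ 3 ≤ y := (pow_le_pow_right₀ hL1 (le_max_right _ _)).trans y3
      have g6 : 2 * (((k + 1 + 1 : ℕ) : ℝ)) ^ 3 * (Nat.log y (N ^ 2)) / y ≤ 1 / 2 := by
        rw [div_le_div_iff₀ hy0 (by norm_num)]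
        have g7 : (((k + 1 + 1 : ℕ) : ℝ)) ^ 3 = ((k : ℝ) + 2) ^ 3 := by push_cast; ring
        rw [g7]
        calc 2 * ((k : ℝ) + 2) ^ 3 * (Nat.log y (N ^ 2)) * 2 = 4 * ((k : ℝ) + 2) ^ 3 * (Nat.log y (N ^ 2)) := by ring
          _ ≤ 4 * ((k : ℝ) + 2) ^ 3 * (2 * L) := mul_le_mul_of_nonneg_left g2 (by positivity)
          _ = (8 * ((k : ℝ) + 2) ^ 3) * L := by ring
          _ ≤ L * L := mul_le_mul_of_nonneg_right hLk hL0.le
          _ ≤ L ^ 3 := by
              rw [pow_succ, sq]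
              exact le_mul_of_one_le_right (by positivity) hL1
          _ ≤ 1 * y := by rw [one_mul]; exact g5
      calc Real.exp (2 * (((k + 1 + 1 : ℕ) : ℝ)) ^ 3 * (Nat.log y (N ^ 2)) / y) ≤ Real.exp (1 / 2) :=
            Real.exp_le_exp.2 g6
        _ ≤ 2 := by
            have h5 := one_sub_ge_exp (t := 1 / 4) (by norm_num) (by norm_num)
            have h6 : Real.exp (1 / 2) * Real.exp (-(2 * (1 / 4))) = 1 := by
              rw [← Real.exp_add]; norm_num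
            have h7 := Real.exp_pos (1 / 2)
            have h8 : 1 / 2 ≤ Real.exp (-(2 * (1 / 4))) := by
              have := Real.add_one_le_exp (-(2 * (1 / 4) : ℝ))
              linarith
            nlinarith
    -- one step
    have hZ : ∀ t ∈ H, ∀ S1 ⊆ H.erase t,
        u * ∑ n ∈ Icc 1 N, WH (eOG N) (g2 N) (ro y) (H.erase t) S1 n * ro y (n + t) - x ≤
          ∑ n ∈ Icc 1 N, WH (eOG N) (g2 N) (ro y) (H.erase t) S1 n * g2 N (n + t) := by
      intro t ht S1 hS1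
      set f := WH (eOG N) (g2 N) (ro y) (H.erase t) S1 with hf
      have hf01 : ∀ n, 0 ≤ f n ∧ f n ≤ 1 := WH_bd (eOG_bd N) (g2_bd N) (ro_bd y) _ _
      have hfodd : ∀ n, f n ≠ 0 → Odd n := by
        intro n hn
        apply eOG_odd (N := N)
        intro h0'
        apply hn
        rw [hf]
        unfold WH
        rw [h0', zero_mul]
      have hev := adm_evenG hNev b2 ht
      have hgood := hg t ht S1 hS1
      rw [← hf] at hgood
      unfold Zf at hgood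
      rw [if_pos hev, fo_eq hfodd] at hgood
      have hs := STEP N hNN₁ y hyC0 f hf01 t (hHN t ht)
      have he := err_le (y := y) (ε₁ := ε₁) (δ' := δ') hN2 f hfodd t hev
      have hi := mul_le_mul_of_nonneg_right (hinv N hNN₂) (LD_nonneg y ⌊(N : ℝ) ^ δ'⌋₊ N f t)
      have hW0 : 0 ≤ W0 y N f t := sum_nonneg fun n _ => mul_nonneg (hf01 n).1 (ro_nonneg _ _)
      have h5 : u * ∑ n ∈ Icc 1 N, f n * ro y (n + t) ≤ c₀' * ε₁ * (W0 y N f t * VP (Pin N y ε₁)) := by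
        have e : u * ∑ n ∈ Icc 1 N, f n * ro y (n + t) = c₀ * (ε₁ * (W0 y N f t * VP (Pin N y ε₁))) := by
          rw [hu]; unfold W0; ring
        rw [e, mul_assoc c₀']
        exact mul_le_mul_of_nonneg_right hc₀2 (mul_nonneg hε₁.le (mul_nonneg hW0 hVP.1))
      have h6 : 3 * (L + 3) * (∑ d ∈ insert 1 (FF N ε₁), ∑ T ∈ (Pin N y ε₁).powerset.filter
          (fun T : Finset ℕ => ((∏ p ∈ T, p : ℕ) : ℝ) ≤ (N : ℝ) ^ δ'), |rr y N f t (d * ∏ p ∈ T, p)|) ≤
          3 * (L + 3) * (ZZ y N (SSm N y ε₁ δ') (FF N ε₁) f t +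
            Real.exp 1 / ε₁ * LD y ⌊(N : ℝ) ^ δ'⌋₊ N f t) :=
        mul_le_mul_of_nonneg_left (by linarith) (by positivity)
      linarith
    have hlower := step_lower' (H := H) hx0 hu0 hu1 hZ H (subset_refl _)
    rw [b1.2] at hlower
    have hmain := (abs_le.1 (hm hNev (g2 N) H b1.2)).1
    have hPO := WHG_eG_eOG (g2 N) y N H hNev
    have hfull := WHG_full_le N y H hN4 hNev
    have hfin := low_calc (k := k) (cs := c₀ * cz) (cp := cp) (L := L) (n := N) (u := u) (V := Vz y)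
      (PTy := PT (pat (HM N H)) y) (W := ∑ n ∈ Icc 1 N, WH (eOG N) (g2 N) (ro y) H ∅ n) (xN := x) (CTy := CT (pat (HM N H)))
      (P := gol2 (HM N H) N) (by positivity) hcp hL1 hN0 hLb hu0 hu1 hVz0 huV (PT_nonneg _ _) c2 hCP
      (by linarith) rfl hx1 (by push_cast at hlower; linarith)
    linarith
  have hfew := few_Z (k + 4) (C := C) (C' := C') hε₁ hq hN2 hL3 hLq h2
    (fun f hf S hS => HQ f hf (FF N ε₁) (fun e he => by
      obtain ⟨g1, g2, g3, g4, g5⟩ := FF_facts hN2 he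
      exact ⟨⟨g1, g2⟩, g3, g4, g5⟩) S hS)
    (fun f hf S hS => HF ⌊(N : ℝ) ^ δ'⌋₊ (by
      refine (Nat.floor_le (by positivity)).trans ?_
      apply Real.rpow_le_rpow_of_exponent_le (by exact_mod_cast (by omega : 1 ≤ N))
      linarith) f hf S hS)
  have hfinal := few_bad (K := L ^ C + L ^ C') (by positivity) (eOG_bd N) (g2_bd N) (ro_bd y)
    hfew k A (fun a ha => (hA a ha).2) Bad hbad
  refine hfinal.trans (mul_le_mul_of_nonneg_left ?_ (Nat.cast_nonneg _))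
  have g1 : (2 : ℝ) ^ k ≤ L := by
    have : (2 : ℝ) ^ k ≤ 2 ^ (k + 1) := pow_le_pow_right₀ (by norm_num) (by omega)
    linarith
  have g2 : L ^ C ≤ L ^ max C C' := pow_le_pow_right₀ hL1 (le_max_left _ _)
  have g3 : L ^ C' ≤ L ^ max C C' := pow_le_pow_right₀ hL1 (le_max_right _ _)
  calc (2 : ℝ) ^ k * (L ^ C + L ^ C') ≤ L * (L ^ max C C' + L ^ max C C') := by gcongr
    _ = 2 * L ^ (max C C' + 1) := by ring
    _ ≤ L * L ^ (max C C' + 1) := mul_le_mul_of_nonneg_right (by linarith) (by positivity)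
    _ = L ^ (max C C' + 2) := by ring


end Pool.Agent.Y822.R
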