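import Mathlib
import Pool.Agent.Y822.R.Main0
import Pool.Agent.Y822.Up

/-! Simultaneous Goldbach representations by two primes, an upper bound for all but few sets of even numbers. -/

set_option autoImplicit false

namespace Pool.Agent.Y822.R

open Finset Filter
open Pool.Agent.Y822
open Pool.Agent.H373R2.T7 (pz Vz mem_pz)
open Pool.Agent.H387R2.Uni (nuT Adm locT CT)

/-- the number of primes `p ≤ N` such that all `m - p`, `m ∈ M`, are prime -/
def golH (M : Finset ℕ) (N : ℕ) : ℕ :=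
  ((Icc 1 N).filter (fun p => p.Prime ∧ ∀ m ∈ M, (m - p).Prime)).card

lemma card_dec {S : Finset ℕ} {P : ℕ → Prop} (i1 i2 : DecidablePred P) :
    (@Finset.filter ℕ P i1 S).card = (@Finset.filter ℕ P i2 S).card := by
  rw [Subsingleton.elim i1 i2]

/-- from the pattern count to the rough count -/
lemma golH_le (H : Finset ℕ) (N z : ℕ) (hN : 4 ≤ N) (hev : Even N) (r : ℕ → ℝ) :
    (golH (HM N H) N : ℝ) ≤ ∑ n ∈ Icc 1 N, WH (eG N) (ro z) r H H n + z := by
  classical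
  have h0 : golH (HM N H) N =
      ((Icc 1 N).filter (fun n => (N - n).Prime ∧ ∀ m ∈ HM N H, (m - (N - n)).Prime)).card := by
    have h := card_refl N hN hev (fun p => ∀ m ∈ HM N H, (m - p).Prime)
    unfold golH
    refine Eq.trans ?_ (h.symm.trans ?_)
    · exact card_dec _ _
    · exact card_dec _ _
  have h1 : (Icc 1 N).filter (fun n => (N - n).Prime ∧ ∀ m ∈ HM N H, (m - (N - n)).Prime) ⊆
      ((Icc 1 N).filter (fun n => (N - n).Prime ∧ ∀ h ∈ H, Ro z (n + h))) ∪ Icc 1 z := by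
    intro p hp
    rw [mem_filter] at hp
    rw [mem_union, mem_filter]
    have hpN := mem_Icc.1 hp.1
    rcases Nat.lt_or_ge z p with hzp | hzp
    · refine Or.inl ⟨hp.1, hp.2.1, fun h hh q hq hqz hqd => ?_⟩
      have h3 := hp.2.2 (N + h) (mem_image.2 ⟨h, hh, rfl⟩)
      have e : N + h - (N - p) = p + h := by omega
      rw [e] at h3
      have h2 := (Nat.prime_dvd_prime_iff_eq hq h3).1 hqd
      omega
    · exact Or.inr (mem_Icc.2 ⟨(mem_Icc.1 hp.1).1, hzp⟩)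
  have h2 := (card_le_card h1).trans (card_union_le _ _)
  rw [Nat.card_Icc, Nat.add_sub_cancel] at h2
  have h3 : ∑ n ∈ Icc 1 N, WH (eG N) (ro z) r H H n =
      (((Icc 1 N).filter (fun n => (N - n).Prime ∧ ∀ h ∈ H, Ro z (n + h))).card : ℝ) := by
    have h : ∀ n ∈ Icc 1 N, WH (eG N) (ro z) r H H n =
        if ((N - n).Prime ∧ ∀ h ∈ H, Ro z (n + h)) then (1 : ℝ) else 0 := by
      intro n _
      unfold WH eG
      rw [Finset.sdiff_self, prod_empty, mul_one]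
      by_cases h1 : (N - n).Prime
      · rw [if_pos h1, one_mul]
        by_cases h2 : ∀ h ∈ H, Ro z (n + h)
        · rw [if_pos ⟨h1, h2⟩]
          refine prod_eq_one fun s hs => ?_
          unfold ro
          rw [if_pos (h2 s hs)]
        · rw [if_neg (fun h => h2 h.2)]
          push Not at h2
          obtain ⟨s, hs, hns⟩ := h2
          refine prod_eq_zero hs ?_
          unfold ro
          rw [if_neg hns]
      · rw [if_neg h1, if_neg (fun h => h1 h.1), zero_mul]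
    rw [sum_congr rfl h, ← sum_filter, sum_const, nsmul_eq_mul, mul_one]
  rw [h3, h0]
  exact_mod_cast h2

/-- one good set of shifts -/
lemma good_boundG {k : ℕ} {x ε c0 : ℝ} (hx : 0 < x) (hx8 : x ≤ 1 / 8) (hε : 0 < ε) (hc0 : 0 < c0)
    (hx4 : (1 + x) ^ 2 * (4 / (1 - 4 * x)) ^ (k + 1) ≤ 4 ^ (k + 1) + ε / 2) {N y z : ℕ}
    (hN : 3 ≤ N) (hL : 1 ≤ Real.log N) (hLb : 2 * (k + 4) / (ε * c0) ≤ Real.log N)
    (hz1 : 1 ≤ z) (hlz : (1 / 4 - x) * Real.log N ≤ Real.log z) (hyz : y ≤ z)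
    (hzx : (z : ℝ) ≤ N / Real.log N ^ (k + 4))
    {c : ℕ → ℝ} (hc : Co y c)
    (s1 : ∀ m : ℕ, 0 ≤ ∑ d ∈ Icc 1 (z ^ 2), c d * (if d ∣ m then 1 else 0))
    (s2 : ∀ m : ℕ, (∀ p ∈ PP y z, ¬ p ∣ m) →
      ∑ d ∈ Icc 1 (z ^ 2), c d * (if d ∣ m then 1 else 0) = 1)
    (s3 : ∑ d ∈ Icc 1 (z ^ 2), c d / d = 1 / Pool.Agent.W25.UB.GG (PP y z) z)
    {H : Finset ℕ} (hH : H.card = k + 1) (hN4 : 4 ≤ N) (hev : Even N)
    (hgood : Good (eG N) (ro z) (ro y) (LD y (z ^ 2) N) (N / Real.log N ^ (k + 4)) H)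
    (hm0 : |∑ n ∈ Icc 1 N, WH (eG N) (ro z) (ro y) H ∅ n -
        N / Real.log N * (PT (pat (HM N H)) y * Vz y ^ (k + 1))| ≤
      x * (N / Real.log N * (PT (pat (HM N H)) y * Vz y ^ (k + 1))) + N / Real.log N ^ (k + 4))
    (hct : c0 ≤ CT (pat (HM N H))) (hpt : PT (pat (HM N H)) y ≤ (1 + x) * CT (pat (HM N H))) :
    (golH (HM N H) N : ℝ) ≤ (4 ^ (k + 1) + ε) * CT (pat (HM N H)) * (N / Real.log N ^ (k + 2)) := by
  have hN0 : (0 : ℝ) < N := by positivity
  have hGG := one_le_GG y z hz1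
  have hL0 : 0 < Real.log N := by linarith
  have hu0 : 0 ≤ ∑ d ∈ Icc 1 (z ^ 2), c d / d := by
    rw [s3]; exact div_nonneg zero_le_one (by linarith)
  have hu1 : ∑ d ∈ Icc 1 (z ^ 2), c d / d ≤ 1 := by
    rw [s3]; exact div_le_one_of_le₀ hGG (by linarith)
  have hxN0 : 0 ≤ (N : ℝ) / Real.log N ^ (k + 4) := by positivity
  have t1 := step_upper hxN0 hu0 hu1 (eG_bd N) (ro_bd z) (ro_bd y) (N := N)
    (fun f hf h hfh => (sieve_step hyz hc s1 s2 f hf h).trans (by linarith)) hgood H (subset_refl H)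
  rw [hH] at t1
  have t3 := golH_le H N z hN4 hev (ro y)
  refine up_calc (u := ∑ d ∈ Icc 1 (z ^ 2), c d / d) (V := Vz y) (PTy := PT (pat (HM N H)) y)
    (W := ∑ n ∈ Icc 1 N, WH (eG N) (ro z) (ro y) H ∅ n) (zr := z) hx hx8 hε hc0 hL hN0 hx4 hLb hu0 hu1
    (Vz_nonneg y) ?_ (PT_nonneg _ _) hct hpt ?_ rfl hzx ?_
  · have g1 := GG_low y z hz1
    have h14 : 0 < 1 / 4 - x := by linarith
    have g2 : 0 < Real.log z := lt_of_lt_of_le (mul_pos h14 hL0) hlz
    have g3 : (∑ d ∈ Icc 1 (z ^ 2), c d / d) * Vz y ≤ 1 / Real.log z := by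
      rw [s3, one_div_mul_eq_div, div_le_div_iff₀ (by linarith) g2]
      linarith
    refine g3.trans ?_
    have g4 : 4 / (1 - 4 * x) / Real.log N = 1 / ((1 / 4 - x) * Real.log N) := by
      have h1 : 1 - 4 * x = 4 * (1 / 4 - x) := by ring
      rw [h1]
      have h2 := h14.ne'
      field_simp
    rw [g4]
    exact one_div_le_one_div_of_le (mul_pos h14 hL0) hlz
  · have := (abs_le.1 hm0).2
    linarith
  · push_cast at t1
    linarith

/-- **the upper bound for almost all sets of shifts** -/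
theorem upper_mainG (k : ℕ) (ε : ℝ) (hε : 0 < ε) : ∃ B : ℕ, ∀ᶠ N : ℕ in atTop, Even N →
    ∀ A : Finset ℕ, (∀ a ∈ A, 1 ≤ a ∧ a ≤ N) → ∀ Bad : Finset (Finset ℕ),
    (∀ H ∈ Bad, H ∈ A.powersetCard (k + 1) ∧ Adm (pat (HM N H)) ∧
      (4 ^ (k + 1) + ε) * CT (pat (HM N H)) * (N / Real.log N ^ (k + 2)) < golH (HM N H) N) →
    (Bad.card : ℝ) ≤ A.card.choose k * Real.log N ^ B := by
  classical
  obtain ⟨x, hx, hx8, hx4⟩ := exists_small (k + 1) (ε / 2) (by positivity)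
  obtain ⟨κ, hκ, hκ1, C, hfew⟩ := few_par (k + 4) x hx (by linarith)
  obtain ⟨c0, hc0, hlow⟩ := PT_low (k + 1)
  have hm0 := main0G κ hκ hκ1 (k + 1) (k + 4) x hx (by linarith)
  obtain ⟨M, hM⟩ : ∃ M : ℕ, M = ⌈((k : ℝ) + 2) ^ 2 * (2 / x)⌉₊ + 1 := ⟨_, rfl⟩
  refine ⟨C + 1, ?_⟩
  have e1 := ev_logN (eventually_ge_atTop ((2 : ℝ) ^ (k + 1)))
  have e1' := ev_logN (eventually_ge_atTop (2 * (k + 4) / (ε * c0)))
  have e1'' := ev_logN (eventually_ge_atTop (8 / x))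
  have e2 := ev_logN (ev_pow_exp (k + 4) (1 / 2) 1 (by norm_num))
  filter_upwards [hfew, hm0, yN_facts κ hκ hκ1 M 8, e1, e1', e1'', e2, eventually_ge_atTop 4] with N h1
    h2 hyf h3 h3' h3'' h4 hN4 hNev A hA Bad hBad
  have hN : 3 ≤ N := by omega
  obtain ⟨y1, y2, y3, y4, y5⟩ := hyf
  have hL1 : 1 ≤ Real.log N := le_trans (one_le_pow₀ (by norm_num)) h3
  have hN0 : (0 : ℝ) < N := by positivity
  obtain ⟨z, hz1, hz2, hz3, hz4, hz5⟩ := z_facts x hx hx8 N (yN κ N) hN y4 h3''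
  obtain ⟨c, hc, s1, s2, s3⟩ := sel (yN κ N) z hz1
  have hzx : (z : ℝ) ≤ N / Real.log N ^ (k + 4) := by
    refine hz5.trans ?_
    rw [le_div_iff₀ (by positivity)]
    have g2 : Real.log N ^ (k + 4) ≤ Real.exp (Real.log N / 2) := by
      have := h4
      rw [one_mul] at this
      calc Real.log N ^ (k + 4) ≤ Real.exp (1 / 2 * Real.log N) := this
        _ = Real.exp (Real.log N / 2) := by congr 1; ring
    calc Real.exp (Real.log N / 2) * Real.log N ^ (k + 4) ≤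
          Real.exp (Real.log N / 2) * Real.exp (Real.log N / 2) :=
          mul_le_mul_of_nonneg_left g2 (Real.exp_pos _).le
      _ = N := by
          rw [← Real.exp_add, add_halves, Real.exp_log hN0]
  have hbad : ∀ H ∈ Bad, H ∈ A.powersetCard (k + 1) ∧
      ¬ Good (eG N) (ro z) (ro (yN κ N)) (LD (yN κ N) (z ^ 2) N) (N / Real.log N ^ (k + 4)) H := by
    intro H hH
    obtain ⟨b1, b2, b3⟩ := hBad H hH
    refine ⟨b1, fun hg => ?_⟩
    rw [mem_powersetCard] at b1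
    have h0 : 0 ∉ HM N H := zero_HM (by omega) H
    have hcH : (HM N H).card = k + 1 := by rw [card_HM, b1.2]
    obtain ⟨c1, c2⟩ := hlow (pat (HM N H)) (by rw [card_pat h0, hcH]) b2
    have hpt : PT (pat (HM N H)) (yN κ N) ≤ (1 + x) * CT (pat (HM N H)) := by
      have hy1 : 1 ≤ M := by omega
      refine PT_le_CT (pat (HM N H)) x hx (by linarith) (yN κ N) ?_ (by omega)
      rw [card_pat h0, hcH]
      have g1 : ((k : ℝ) + 2) ^ 2 * (2 / x) ≤ M := by
        rw [hM]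
        push_cast
        have := Nat.le_ceil (((k : ℝ) + 2) ^ 2 * (2 / x))
        linarith
      have g2 : (M : ℝ) ≤ yN κ N := by exact_mod_cast y5
      have e : (((k + 1 + 1 : ℕ) : ℝ)) ^ 2 = ((k : ℝ) + 2) ^ 2 := by push_cast; ring
      rw [e]
      linarith
    have := good_boundG hx hx8 hε hc0 hx4 hN hL1 h3' hz1 hz2 hz3 hzx hc s1 s2 s3 b1.2 hN4 hNev hg
      (h2 hNev (ro z) H b1.2) c2 hpt
    linarith
  have hfinal := few_bad (K := Real.log N ^ C) (by positivity) (eG_bd N) (ro_bd z) (ro_bd (yN κ N))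
    (h1 (z ^ 2) hz4) k A (fun a ha => (hA a ha).2) Bad hbad
  refine hfinal.trans (mul_le_mul_of_nonneg_left ?_ (Nat.cast_nonneg _))
  have g1 : (2 : ℝ) ^ k ≤ Real.log N := by
    have : (2 : ℝ) ^ k ≤ 2 ^ (k + 1) := pow_le_pow_right₀ (by norm_num) (by omega)
    linarith
  calc (2 : ℝ) ^ k * Real.log N ^ C ≤ Real.log N * Real.log N ^ C :=
        mul_le_mul_of_nonneg_right g1 (by positivity)
    _ = Real.log N ^ (C + 1) := by rw [pow_succ]; ring


end Pool.Agent.Y822.R
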