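import Mathlib
import Pool.Agent.Y822.R.Low
import Pool.Agent.Y822.R.Up

/-! Both bounds together, in terms of the even numbers. -/

set_option autoImplicit false

namespace Pool.Agent.Y822.R

open Finset Filter
open Pool.Agent.Y822
open Pool.Agent.H387R2.Uni (nuT Adm locT CT)

lemma HM_sub {N : ℕ} {M : Finset ℕ} (hM : ∀ m ∈ M, N < m) : HM N (M.image (fun m => m - N)) = M := by
  unfold HM
  rw [image_image]
  have h : ∀ m ∈ M, ((fun s => N + s) ∘ (fun m => m - N)) m = m := by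
    intro m hm
    have := hM m hm
    show N + (m - N) = m
    omega
  ext x
  rw [mem_image]
  constructor
  · rintro ⟨m, hm, rfl⟩
    rw [h m hm]
    exact hm
  · intro hx
    exact ⟨x, hx, h x hx⟩

lemma card_sub {N : ℕ} {M : Finset ℕ} (hM : ∀ m ∈ M, N < m) : (M.image (fun m => m - N)).card = M.card := by
  have h := card_HM N (M.image (fun m => m - N))
  rw [HM_sub hM] at h
  exact h.symm

lemma card_decG {α : Type*} {S : Finset α} {P : α → Prop} (i1 i2 : DecidablePred P) :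
    (@Finset.filter α P i1 S).card = (@Finset.filter α P i2 S).card := by
  rw [Subsingleton.elim i1 i2]

open Classical in
/-- from shifts to even numbers -/
lemma transfer {N k : ℕ} {K : ℝ} (P : Finset ℕ → Prop) (A : Finset ℕ) (hA : ∀ m ∈ A, N < m ∧ m ≤ 2 * N)
    (h : ∀ A' : Finset ℕ, (∀ a ∈ A', 1 ≤ a ∧ a ≤ N) → ∀ Bad : Finset (Finset ℕ),
      (∀ H ∈ Bad, H ∈ A'.powersetCard (k + 1) ∧ P (HM N H)) → (Bad.card : ℝ) ≤ A'.card.choose k * K) :
    (((A.powersetCard (k + 1)).filter P).card : ℝ) ≤ A.card.choose k * K := by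
  have hsub : ∀ M ∈ (A.powersetCard (k + 1)).filter P, ∀ m ∈ M, N < m := by
    intro M hM m hm
    rw [mem_filter, mem_powersetCard] at hM
    exact (hA m (hM.1.1 hm)).1
  have hinj : Set.InjOn (fun M : Finset ℕ => M.image (fun m => m - N))
      (((A.powersetCard (k + 1)).filter P : Finset (Finset ℕ)) : Set (Finset ℕ)) := by
    intro M1 h1 M2 h2 he
    have e1 := HM_sub (hsub M1 (by exact_mod_cast h1))
    have e2 := HM_sub (hsub M2 (by exact_mod_cast h2))
    have he' : M1.image (fun m => m - N) = M2.image (fun m => m - N) := he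
    rw [← e1, ← e2, he']
  have h1 := h (A.image (fun m => m - N)) (by
    intro a ha
    obtain ⟨m, hm, rfl⟩ := mem_image.1 ha
    have := hA m hm
    show 1 ≤ m - N ∧ m - N ≤ N
    omega) (((A.powersetCard (k + 1)).filter P).image (fun M : Finset ℕ => M.image (fun m => m - N))) (by
    intro H hH
    obtain ⟨M, hM, rfl⟩ := mem_image.1 hH
    have hs := hsub M hM
    rw [mem_filter, mem_powersetCard] at hM
    refine ⟨mem_powersetCard.2 ⟨image_subset_image hM.1.1, ?_⟩, ?_⟩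
    · show (M.image (fun m => m - N)).card = k + 1
      rw [card_sub hs, hM.1.2]
    · show P (HM N (M.image (fun m => m - N)))
      rw [HM_sub hs]
      exact hM.2)
  rw [card_image_of_injOn hinj, card_sub (fun m hm => (hA m hm).1)] at h1
  exact h1

open Classical in
theorem both : ∃ c : ℝ, 0 < c ∧ ∀ k : ℕ, ∀ ε : ℝ, 0 < ε → ∃ B : ℕ, ∀ᶠ N : ℕ in atTop, Even N →
    ∀ A : Finset ℕ, (∀ m ∈ A, N < m ∧ m ≤ 2 * N) →
      (((A.powersetCard (k + 1)).filter (fun M => Adm (pat M) ∧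
        ¬ (c ^ (k + 1) * CT (pat M) * (N / Real.log N ^ (k + 2)) ≤ (gol2 M N : ℝ) ∧
          (golH M N : ℝ) ≤ (4 ^ (k + 1) + ε) * CT (pat M) * (N / Real.log N ^ (k + 2))))).card : ℝ) ≤
        A.card.choose k * Real.log N ^ B := by
  obtain ⟨c, hc, hlow⟩ := low_mainG
  refine ⟨c, hc, fun k ε hε => ?_⟩
  obtain ⟨B1, h1⟩ := hlow k
  obtain ⟨B2, h2⟩ := upper_mainG k ε hε
  refine ⟨max B1 B2 + 1, ?_⟩
  filter_upwards [h1, h2, ev_logN (eventually_ge_atTop (2 : ℝ))] with N h1 h2 hL hev A hA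
  have g1 := transfer (K := Real.log N ^ B1) (fun M => Adm (pat M) ∧
    (gol2 M N : ℝ) < c ^ (k + 1) * CT (pat M) * (N / Real.log N ^ (k + 2))) A hA
    (fun A' hA' Bad hBad => h1 hev A' hA' Bad hBad)
  have g2 := transfer (K := Real.log N ^ B2) (fun M => Adm (pat M) ∧
    (4 ^ (k + 1) + ε) * CT (pat M) * (N / Real.log N ^ (k + 2)) < golH M N) A hA
    (fun A' hA' Bad hBad => h2 hev A' hA' Bad hBad)
  have hsub : (A.powersetCard (k + 1)).filter (fun M => Adm (pat M) ∧
        ¬ (c ^ (k + 1) * CT (pat M) * (N / Real.log N ^ (k + 2)) ≤ (gol2 M N : ℝ) ∧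
          (golH M N : ℝ) ≤ (4 ^ (k + 1) + ε) * CT (pat M) * (N / Real.log N ^ (k + 2)))) ⊆
      (A.powersetCard (k + 1)).filter (fun M => Adm (pat M) ∧
        (gol2 M N : ℝ) < c ^ (k + 1) * CT (pat M) * (N / Real.log N ^ (k + 2))) ∪
      (A.powersetCard (k + 1)).filter (fun M => Adm (pat M) ∧
        (4 ^ (k + 1) + ε) * CT (pat M) * (N / Real.log N ^ (k + 2)) < golH M N) := by
    intro M hM
    rw [mem_filter] at hM
    rw [mem_union, mem_filter, mem_filter]
    obtain ⟨m1, m2, m3⟩ := hM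
    rcases not_and_or.1 m3 with m4 | m4
    · exact Or.inl ⟨m1, m2, not_le.1 m4⟩
    · exact Or.inr ⟨m1, m2, not_le.1 m4⟩
  have h3 := (card_le_card hsub).trans (card_union_le _ _)
  have h4 : ((((A.powersetCard (k + 1)).filter (fun M => Adm (pat M) ∧
        ¬ (c ^ (k + 1) * CT (pat M) * (N / Real.log N ^ (k + 2)) ≤ (gol2 M N : ℝ) ∧
          (golH M N : ℝ) ≤ (4 ^ (k + 1) + ε) * CT (pat M) * (N / Real.log N ^ (k + 2))))).card : ℕ) : ℝ) ≤
      (((A.powersetCard (k + 1)).filter (fun M => Adm (pat M) ∧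
        (gol2 M N : ℝ) < c ^ (k + 1) * CT (pat M) * (N / Real.log N ^ (k + 2)))).card : ℝ) +
      (((A.powersetCard (k + 1)).filter (fun M => Adm (pat M) ∧
        (4 ^ (k + 1) + ε) * CT (pat M) * (N / Real.log N ^ (k + 2)) < golH M N)).card : ℝ) := by
    exact_mod_cast h3
  refine h4.trans ?_
  have hL1 : 1 ≤ Real.log N := by linarith
  have q1 : Real.log N ^ B1 ≤ Real.log N ^ max B1 B2 := pow_le_pow_right₀ hL1 (le_max_left _ _)
  have q2 : Real.log N ^ B2 ≤ Real.log N ^ max B1 B2 := pow_le_pow_right₀ hL1 (le_max_right _ _)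
  have q0 : (0 : ℝ) ≤ A.card.choose k := Nat.cast_nonneg _
  have q3 : Real.log N ^ B1 + Real.log N ^ B2 ≤ Real.log N ^ (max B1 B2 + 1) := by
    rw [pow_succ]
    have : (0 : ℝ) ≤ Real.log N ^ max B1 B2 := by positivity
    nlinarith
  refine (add_le_add (le_of_eq_of_le (congrArg Nat.cast (card_decG _ _)) g1)
    (le_of_eq_of_le (congrArg Nat.cast (card_decG _ _)) g2)).trans ?_
  calc (A.card.choose k : ℝ) * Real.log N ^ B1 + A.card.choose k * Real.log N ^ B2
      = A.card.choose k * (Real.log N ^ B1 + Real.log N ^ B2) := by ring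
    _ ≤ _ := mul_le_mul_of_nonneg_left q3 q0

end Pool.Agent.Y822.R
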